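import Pool.Agent.Helper68.Fam.Family

/-!
# Project FAM, packet CLOSE: the family of a graph with all degrees at least seven
-/

namespace NApexGraphs.Fam.Helper14

open SimpleGraph NApexGraphs NApexGraphs.Dom

/-- transport of a nabla-Y move along an isomorphism -/
def nablaIso {V W : Type} {G : SimpleGraph V} {H : SimpleGraph W} (e : G ≃g H) (a b c : V) :
    nablaY G a b c ≃g nablaY H (e a) (e b) (e c) where
  toEquiv := Equiv.optionCongr e.toEquiv
  map_rel_iff' := by
    have inj : ∀ x y : V, e x = e y ↔ x = y := fun x y => e.injective.eq_iff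
    rintro (_ | x) (_ | y)
    · exact Iff.rfl
    · change (e y = e a ∨ e y = e b ∨ e y = e c) ↔ (y = a ∨ y = b ∨ y = c)
      rw [inj, inj, inj]
    · change (e x = e a ∨ e x = e b ∨ e x = e c) ↔ (x = a ∨ x = b ∨ x = c)
      rw [inj, inj, inj]
    · change (H.Adj (e x) (e y) ∧ ¬ ((e x = e a ∨ e x = e b ∨ e x = e c) ∧
          (e y = e a ∨ e y = e b ∨ e y = e c))) ↔
        (G.Adj x y ∧ ¬ ((x = a ∨ x = b ∨ x = c) ∧ (y = a ∨ y = b ∨ y = c)))
      rw [inj, inj, inj, inj, inj, inj]
      exact and_congr_left' e.map_adj_iff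

/-- the new vertex of a nabla-Y move has at most three neighbours -/
theorem none_deg {V : Type} (G : SimpleGraph V) (a b c : V) :
    ((nablaY G a b c).neighborSet none).ncard ≤ 3 := by
  classical
  have h : (nablaY G a b c).neighborSet none ⊆
      (({some a, some b, some c} : Finset (Option V)) : Set (Option V)) := by
    rintro (_ | x) hx
    · exact hx.elim
    · have hx' : x = a ∨ x = b ∨ x = c := hx
      rcases hx' with h | h | h <;> subst h <;> simp
  calc ((nablaY G a b c).neighborSet none).ncard
      ≤ ((({some a, some b, some c} : Finset (Option V)) : Set (Option V))).ncard :=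
        Set.ncard_le_ncard h (Finset.finite_toSet _)
    _ = ({some a, some b, some c} : Finset (Option V)).card := Set.ncard_coe_finset _
    _ ≤ 3 := Finset.card_le_three

/-- the base of the induction -/
theorem base {V : Type} [DecidableEq V] (G : SimpleGraph V) :
    Tri G ∅ ∧ Nonempty (G ≃g YG G ∅) := by
  refine ⟨⟨?_, ?_, ?_⟩, ⟨?_⟩⟩
  · intro T hT
    exact absurd hT (Finset.notMem_empty T)
  · intro T hT
    exact absurd hT (Finset.notMem_empty T)
  · intro T hT
    exact absurd hT (Finset.notMem_empty T)
  · haveI : IsEmpty {T // T ∈ (∅ : Finset (Finset V))} := ⟨fun T => Finset.notMem_empty T.1 T.2⟩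
    exact
      { toEquiv := (Equiv.sumEmpty V {T // T ∈ (∅ : Finset (Finset V))}).symm
        map_rel_iff' := by
          intro x y
          change (G.Adj x y ∧ ∀ T ∈ (∅ : Finset (Finset V)), ¬ (x ∈ T ∧ y ∈ T)) ↔ G.Adj x y
          exact ⟨fun h => h.1, fun h => ⟨h, fun T hT => absurd hT (Finset.notMem_empty T)⟩⟩ }

/-- packet **CLOSE** -/
theorem gCLOSE : Goals.UP → Goals.DOWN → Goals.DEG → Goals.CLOSE := by
  intro hUP hDOWN hDEG V _ _ G hdeg W A hfam
  let P : ((V : Type) × SimpleGraph V) → Prop := fun X =>
    ∃ F : Finset (Finset V), Tri G F ∧ Nonempty (X.2 ≃g YG G F)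
  have hmove : ∀ X Y : (V : Type) × SimpleGraph V, Move X Y → (P X ↔ P Y) := by
    rintro X Y (⟨⟨e⟩⟩ | ⟨a, b, c, hab, hac, hbc, ⟨g⟩⟩)
    · constructor
      · rintro ⟨F, hF, ⟨f⟩⟩
        exact ⟨F, hF, ⟨e.symm.trans f⟩⟩
      · rintro ⟨F, hF, ⟨f⟩⟩
        exact ⟨F, hF, ⟨e.trans f⟩⟩
    · constructor
      · rintro ⟨F, hF, ⟨f⟩⟩
        obtain ⟨F', hF', ⟨k⟩⟩ := hUP V G F hF (f a) (f b) (f c) (f.map_adj_iff.2 hab)
          (f.map_adj_iff.2 hac) (f.map_adj_iff.2 hbc)
        exact ⟨F', hF', ⟨(g.trans (nablaIso f a b c)).trans k⟩⟩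
      · rintro ⟨F, hF, ⟨f⟩⟩
        let e : nablaY X.2 a b c ≃g YG G F := g.symm.trans f
        rcases hen : e none with x | T
        · exfalso
          have h4 := hDEG V G F hF x (hdeg x)
          have h3 := none_deg X.2 a b c
          have himg : (YG G F).neighborSet (Sum.inl x) =
              e '' ((nablaY X.2 a b c).neighborSet none) := by
            ext z
            constructor
            · intro hz
              refine ⟨e.symm z, ?_, e.apply_symm_apply z⟩
              have hz' : (YG G F).Adj (e none) z := by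
                rw [hen]
                exact hz
              change (nablaY X.2 a b c).Adj none (e.symm z)
              rw [← e.map_adj_iff, e.apply_symm_apply]
              exact hz'
            · rintro ⟨w, hw, rfl⟩
              change (YG G F).Adj (Sum.inl x) (e w)
              rw [← hen]
              exact e.map_adj_iff.2 hw
          rw [himg, Set.ncard_image_of_injective _ e.injective] at h4
          omega
        · exact hDOWN V G F hF X.1 X.2 a b c hab hac hbc e T hen
  have heqv : ∀ X Y : (V : Type) × SimpleGraph V, Relation.EqvGen Move X Y → (P X ↔ P Y) := by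
    intro X Y h
    induction h with
    | rel X Y h => exact hmove X Y h
    | refl X => exact Iff.rfl
    | symm X Y _ ih => exact ih.symm
    | trans X Y Z _ _ ih1 ih2 => exact ih1.trans ih2
  have h0 : P ⟨V, G⟩ := ⟨∅, base G⟩
  exact (heqv _ _ hfam).1 h0

end NApexGraphs.Fam.Helper14
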