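import Pool.Agent.Helper68.Fam.Goals

/-!
# Project FAM, packet MADER: graphs with at least `3 n - 5` edges have a `K₅` minor
-/

namespace NApexGraphs.Fam.Helper14

open SimpleGraph NApexGraphs NApexGraphs.Dom NApexGraphs.Fam

variable {V : Type}

theorem conn_pair' {G : SimpleGraph V} {x y : V} (h : G.Adj x y) : Conn G {x, y} := conn_pair h

theorem touch_of {G : SimpleGraph V} {S T : Set V} {x y : V} (hx : x ∈ S) (hy : y ∈ T)
    (h : G.Adj x y) : Touch G S T := ⟨x, hx, y, hy, h⟩

/-- `K₅` from five pairwise adjacent vertices -/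
theorem k5_single {G : SimpleGraph V} {Z : Set V} {a b c d e : V}
    (hab : G.Adj a b) (hac : G.Adj a c) (had : G.Adj a d) (hae : G.Adj a e) (hbc : G.Adj b c)
    (hbd : G.Adj b d) (hbe : G.Adj b e) (hcd : G.Adj c d) (hce : G.Adj c e) (hde : G.Adj d e)
    (ha : a ∈ Z) (hb : b ∈ Z) (hc : c ∈ Z) (hd : d ∈ Z) (he : e ∈ Z) : HasK5 G Z := by
  refine hasK5_sets {a} {b} {c} {d} {e} ?_ ?_ ?_ ?_
  · intro S hS
    simp only [List.mem_cons, List.not_mem_nil, or_false] at hS
    rcases hS with rfl | rfl | rfl | rfl | rfl <;> exact Conn.singleton G _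
  · simp only [List.pairwise_cons, List.mem_cons, List.not_mem_nil, or_false, forall_eq_or_imp,
      forall_eq, IsEmpty.forall_iff, implies_true, List.Pairwise.nil, and_true,
      Set.disjoint_singleton]
    exact ⟨⟨hab.ne, hac.ne, had.ne, hae.ne⟩, ⟨hbc.ne, hbd.ne, hbe.ne⟩, ⟨hcd.ne, hce.ne⟩, hde.ne⟩
  · simp only [List.pairwise_cons, List.mem_cons, List.not_mem_nil, or_false, forall_eq_or_imp,
      forall_eq, IsEmpty.forall_iff, implies_true, List.Pairwise.nil, and_true, touch_singleton]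
    exact ⟨⟨hab, hac, had, hae⟩, ⟨hbc, hbd, hbe⟩, ⟨hcd, hce⟩, hde⟩
  · intro S hS
    simp only [List.mem_cons, List.not_mem_nil, or_false] at hS
    rcases hS with rfl | rfl | rfl | rfl | rfl <;>
      (rw [Set.singleton_subset_iff]; assumption)

/-- `K₅` from a vertex `v`, its neighbour `c` and an alternating four-cycle -/
theorem k5_wheel {G : SimpleGraph V} {Z : Set V} {v c p p' q q' : V}
    (hvc : G.Adj v c) (hvp : G.Adj v p) (hvp' : G.Adj v p') (hvq : G.Adj v q) (hvq' : G.Adj v q')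
    (hcp : G.Adj c p) (hcp' : G.Adj c p') (hcq : G.Adj c q) (hcq' : G.Adj c q')
    (h1 : G.Adj p q) (h2 : G.Adj p q') (h3 : G.Adj p' q) (h4 : G.Adj p' q')
    (hpp : p ≠ p') (hqq : q ≠ q')
    (mv : v ∈ Z) (mc : c ∈ Z) (mp : p ∈ Z) (mp' : p' ∈ Z) (mq : q ∈ Z) (mq' : q' ∈ Z) :
    HasK5 G Z := by
  refine hasK5_sets {v} {c} {p, q} {p'} {q'} ?_ ?_ ?_ ?_
  · intro S hS
    simp only [List.mem_cons, List.not_mem_nil, or_false] at hS
    rcases hS with rfl | rfl | rfl | rfl | rfl
    · exact Conn.singleton G _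
    · exact Conn.singleton G _
    · exact conn_pair h1
    · exact Conn.singleton G _
    · exact Conn.singleton G _
  · simp only [List.pairwise_cons, List.mem_cons, List.not_mem_nil, or_false, forall_eq_or_imp,
      forall_eq, IsEmpty.forall_iff, implies_true, List.Pairwise.nil, and_true,
      Set.disjoint_singleton_left, Set.disjoint_singleton_right,
      Set.mem_insert_iff, Set.mem_singleton_iff, not_or]
    exact ⟨⟨hvc.ne, ⟨hvp.ne, hvq.ne⟩, hvp'.ne, hvq'.ne⟩, ⟨⟨hcp.ne, hcq.ne⟩, hcp'.ne, hcq'.ne⟩,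
      ⟨⟨hpp.symm, h3.ne⟩, ⟨h2.ne.symm, hqq.symm⟩⟩, h4.ne⟩
  · simp only [List.pairwise_cons, List.mem_cons, List.not_mem_nil, or_false, forall_eq_or_imp,
      forall_eq, IsEmpty.forall_iff, implies_true, List.Pairwise.nil, and_true]
    refine ⟨⟨touch_singleton.2 hvc, touch_of rfl (Or.inl rfl) hvp, touch_singleton.2 hvp',
      touch_singleton.2 hvq'⟩, ⟨touch_of rfl (Or.inl rfl) hcp, touch_singleton.2 hcp',
      touch_singleton.2 hcq'⟩, ⟨touch_of (Or.inr rfl) rfl h3.symm, touch_of (Or.inl rfl) rfl h2⟩,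
      touch_singleton.2 h4⟩
  · intro S hS
    simp only [List.mem_cons, List.not_mem_nil, or_false] at hS
    rcases hS with rfl | rfl | rfl | rfl | rfl
    · rw [Set.singleton_subset_iff]; exact mv
    · rw [Set.singleton_subset_iff]; exact mc
    · rw [Set.insert_subset_iff, Set.singleton_subset_iff]; exact ⟨mp, mq⟩
    · rw [Set.singleton_subset_iff]; exact mp'
    · rw [Set.singleton_subset_iff]; exact mq'

open Classical in
theorem eW_pairs (G : SimpleGraph V) (W : Finset V) :
    eW G W = ((W ×ˢ W).filter (fun p => G.Adj p.1 p.2)).card := by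
  rw [Finset.card_filter, Finset.sum_product]
  unfold eW
  refine Finset.sum_congr rfl fun v _ => ?_
  rw [Finset.card_filter]

open Classical in
theorem eW_delete (G : SimpleGraph V) (W : Finset V) {x y : V} (hx : x ∈ W) (hy : y ∈ W)
    (h : G.Adj x y) : eW (G.deleteEdges {s(x, y)}) W + 2 = eW G W := by
  rw [eW_pairs, eW_pairs]
  have h1 : ∀ inst : DecidablePred (fun p : V × V => (G.deleteEdges {s(x, y)}).Adj p.1 p.2),
      @Finset.filter _ (fun p : V × V => (G.deleteEdges {s(x, y)}).Adj p.1 p.2) inst (W ×ˢ W) =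
      (((W ×ˢ W).filter (fun p => G.Adj p.1 p.2)).erase (x, y)).erase (y, x) := by
    intro inst
    ext ⟨a, b⟩
    simp only [Finset.mem_filter, Finset.mem_product, SimpleGraph.deleteEdges_adj,
      Set.mem_singleton_iff, Finset.mem_erase, ne_eq, Prod.mk.injEq, Sym2.eq_iff]
    tauto
  have m1 : (x, y) ∈ (W ×ˢ W).filter (fun p => G.Adj p.1 p.2) := by
    rw [Finset.mem_filter, Finset.mem_product]
    exact ⟨⟨hx, hy⟩, h⟩
  have m2 : (y, x) ∈ ((W ×ˢ W).filter (fun p => G.Adj p.1 p.2)).erase (x, y) := by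
    rw [Finset.mem_erase, Finset.mem_filter, Finset.mem_product]
    refine ⟨?_, ⟨hy, hx⟩, h.symm⟩
    intro he
    exact h.ne (Prod.mk.inj he).2
  rw [h1, Finset.card_erase_of_mem m2, Finset.card_erase_of_mem m1]
  have c2 := Finset.card_pos.2 ⟨_, m2⟩
  rw [Finset.card_erase_of_mem m1] at c2
  omega

theorem eW_eq (G : SimpleGraph V) (W : Finset V) : eW G W = ∑ v ∈ W, degW G W v := rfl

open Classical in
theorem eW_le (G : SimpleGraph V) (W : Finset V) : eW G W ≤ W.card * (W.card - 1) := by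
  rw [eW_eq, ← smul_eq_mul, ← Finset.sum_const]
  refine Finset.sum_le_sum fun v hv => ?_
  unfold degW
  rw [← Finset.card_erase_of_mem hv]
  apply Finset.card_le_card
  intro z hz
  rw [Finset.mem_filter] at hz
  rw [Finset.mem_erase]
  exact ⟨hz.2.ne.symm, hz.1⟩

/-- the final configuration -/
theorem last_step [DecidableEq V] (G : SimpleGraph V) (W : Finset V) (v : V) (hv : v ∈ W)
    (h4 : 4 ≤ degW G W v) (h5 : degW G W v ≤ 5)
    (hcom : ∀ y ∈ W, G.Adj v y → 3 ≤ comN G W v y) : HasK5 G (W : Set V) := by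
  classical
  set N : Finset V := W.filter (fun z => G.Adj v z) with hN
  have hNc : N.card = degW G W v := by
    rw [hN]
    unfold degW
    congr 1
  have memN : ∀ z, z ∈ N ↔ z ∈ W ∧ G.Adj v z := by
    intro z
    rw [hN, Finset.mem_filter]
  have hc : ∀ y ∈ N, 3 ≤ (N.filter (fun z => G.Adj y z)).card := by
    intro y hy
    have h1 := hcom y ((memN y).1 hy).1 ((memN y).1 hy).2
    refine h1.trans (le_of_eq ?_)
    unfold comN
    congr 1
    ext z
    rw [Finset.mem_filter, Finset.mem_filter, memN]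
    tauto
  have hnon : ∀ y ∈ N, ((N.erase y).filter (fun z => ¬ G.Adj y z)).card + 4 ≤ N.card := by
    intro y hy
    have h1 := Finset.card_filter_add_card_filter_not (s := N.erase y) (fun z => G.Adj y z)
    have h2 : (N.erase y).filter (fun z => G.Adj y z) = N.filter (fun z => G.Adj y z) := by
      ext z
      rw [Finset.mem_filter, Finset.mem_filter, Finset.mem_erase]
      constructor
      · exact fun h => ⟨h.1.2, h.2⟩
      · exact fun h => ⟨⟨h.2.ne.symm, h.1⟩, h.2⟩
    rw [h2, Finset.card_erase_of_mem hy] at h1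
    have h3 := hc y hy
    have h6 := Finset.card_pos.2 ⟨y, hy⟩
    omega
  have hadj : ∀ y ∈ N, ∀ s ∈ N, ∀ t ∈ N, s ≠ y → t ≠ y → ¬ G.Adj y s → ¬ G.Adj y t → s = t := by
    intro y hy s hs t ht hsy hty ns nt
    have h1 := hnon y hy
    have h2 : ((N.erase y).filter (fun z => ¬ G.Adj y z)).card ≤ 1 := by omega
    exact Finset.card_le_one.1 h2 s
      (Finset.mem_filter.2 ⟨Finset.mem_erase.2 ⟨hsy, hs⟩, ns⟩) t
      (Finset.mem_filter.2 ⟨Finset.mem_erase.2 ⟨hty, ht⟩, nt⟩)
  by_cases h45 : N.card = 4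
  · -- four neighbours
    have hall : ∀ y ∈ N, ∀ z ∈ N, y ≠ z → G.Adj y z := by
      intro y hy z hz hyz
      by_contra hcon
      have h1 := hnon y hy
      have h2 : z ∈ (N.erase y).filter (fun z => ¬ G.Adj y z) :=
        Finset.mem_filter.2 ⟨Finset.mem_erase.2 ⟨hyz.symm, hz⟩, hcon⟩
      have h3 := Finset.card_pos.2 ⟨z, h2⟩
      omega
    obtain ⟨a, ha⟩ : N.Nonempty := Finset.card_pos.1 (by omega)
    have h3 : (N.erase a).card = 3 := by rw [Finset.card_erase_of_mem ha]; omega
    obtain ⟨b, c, d, hbc, hbd, hcd, hE⟩ := Finset.card_eq_three.1 h3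
    have mE : ∀ z, z ∈ N.erase a ↔ z = b ∨ z = c ∨ z = d := by
      intro z
      rw [hE]
      simp
    have mb := Finset.mem_erase.1 ((mE b).2 (Or.inl rfl))
    have mc := Finset.mem_erase.1 ((mE c).2 (Or.inr (Or.inl rfl)))
    have md := Finset.mem_erase.1 ((mE d).2 (Or.inr (Or.inr rfl)))
    have nb := (memN b).1 mb.2
    have nc := (memN c).1 mc.2
    have nd := (memN d).1 md.2
    have na := (memN a).1 ha
    exact k5_single na.2 nb.2 nc.2 nd.2 (hall a ha b mb.2 mb.1.symm) (hall a ha c mc.2 mc.1.symm)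
      (hall a ha d md.2 md.1.symm) (hall b mb.2 c mc.2 hbc) (hall b mb.2 d md.2 hbd)
      (hall c mc.2 d md.2 hcd) hv na.1 nb.1 nc.1 nd.1
  · -- five neighbours
    have hN5 : N.card = 5 := by omega
    obtain ⟨p, hp, p', hp', hpp, hrest⟩ : ∃ p ∈ N, ∃ p' ∈ N, p ≠ p' ∧
        ∀ z ∈ N, z ≠ p → z ≠ p' → G.Adj p z ∧ G.Adj p' z := by
      by_cases hex : ∃ p ∈ N, ∃ p' ∈ N, p ≠ p' ∧ ¬ G.Adj p p'
      · obtain ⟨p, hp, p', hp', hpp, hn⟩ := hex
        refine ⟨p, hp, p', hp', hpp, ?_⟩
        intro z hz hzp hzp'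
        refine ⟨?_, ?_⟩
        · by_contra hcon
          exact hzp' (hadj p hp z hz p' hp' hzp hpp.symm hcon hn)
        · by_contra hcon
          exact hzp (hadj p' hp' z hz p hp hzp' hpp hcon fun h => hn h.symm)
      · push Not at hex
        obtain ⟨p, hp, p', hp', hpp⟩ := Finset.one_lt_card.1 (by omega : 1 < N.card)
        exact ⟨p, hp, p', hp', hpp, fun z hz hzp hzp' =>
          ⟨hex p hp z hz hzp.symm, hex p' hp' z hz hzp'.symm⟩⟩
    have h3 : ((N.erase p).erase p').card = 3 := by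
      rw [Finset.card_erase_of_mem (Finset.mem_erase.2 ⟨hpp.symm, hp'⟩),
        Finset.card_erase_of_mem hp]
      omega
    obtain ⟨x, y, z, hxy, hxz, hyz, hE⟩ := Finset.card_eq_three.1 h3
    have mE : ∀ t, t ∈ (N.erase p).erase p' ↔ t = x ∨ t = y ∨ t = z := by
      intro t
      rw [hE]
      simp
    have mem3 : ∀ t, t = x ∨ t = y ∨ t = z → t ≠ p' ∧ t ≠ p ∧ t ∈ N := by
      intro t ht
      have h1 := (mE t).2 ht
      rw [Finset.mem_erase, Finset.mem_erase] at h1
      exact h1
    obtain ⟨xp', xp, xN⟩ := mem3 x (Or.inl rfl)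
    obtain ⟨yp', yp, yN⟩ := mem3 y (Or.inr (Or.inl rfl))
    obtain ⟨zp', zp, zN⟩ := mem3 z (Or.inr (Or.inr rfl))
    have ax := hrest x xN xp xp'
    have ay := hrest y yN yp yp'
    have az := hrest z zN zp zp'
    have wx := (memN x).1 xN
    have wy := (memN y).1 yN
    have wz := (memN z).1 zN
    have wp := (memN p).1 hp
    have wp' := (memN p').1 hp'
    have key : ∀ c q q' : V, c ∈ N → q ∈ N → q' ∈ N → q ≠ q' → G.Adj c q → G.Adj c q' →
        (G.Adj p c ∧ G.Adj p' c) → (G.Adj p q ∧ G.Adj p' q) → (G.Adj p q' ∧ G.Adj p' q') →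
        HasK5 G (W : Set V) := by
      intro c q q' mc mq mq' hqq hcq hcq' hc1 hq1 hq2
      have wc := (memN c).1 mc
      have wq := (memN q).1 mq
      have wq' := (memN q').1 mq'
      exact k5_wheel wc.2 wp.2 wp'.2 wq.2 wq'.2 hc1.1.symm hc1.2.symm hcq hcq' hq1.1 hq2.1 hq1.2
        hq2.2 hpp hqq hv wc.1 wp.1 wp'.1 wq.1 wq'.1
    by_cases hxy' : G.Adj x y
    · by_cases hxz' : G.Adj x z
      · exact key x y z xN yN zN hyz hxy' hxz' ax ay az
      · have hyz' : G.Adj y z := by
          by_contra hcon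
          exact hxy (hadj z zN x xN y yN hxz hyz (fun h => hxz' h.symm) fun h => hcon h.symm)
        exact key y x z yN xN zN hxz hxy'.symm hyz' ay ax az
    · have hxz' : G.Adj x z := by
        by_contra hcon
        exact hyz (hadj x xN y yN z zN hxy.symm hxz.symm hxy' hcon)
      have hyz' : G.Adj y z := by
        by_contra hcon
        exact hxz (hadj y yN x xN z zN hxy hyz.symm (fun h => hxy' h.symm) hcon)
      exact key z x y zN xN yN hxy hxz'.symm hyz'.symm az ax ay

/-- **MADER.** -/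
theorem gMADER : Goals.ECON → Goals.MADER := by
  intro hE V _ _ G W hW3 hW
  classical
  have main : ∀ k : ℕ, ∀ (G : SimpleGraph V) (W : Finset V), W.card + eW G W = k → 3 ≤ W.card →
      6 * W.card ≤ eW G W + 10 → HasK5 G (W : Set V) := by
    intro k
    induction k using Nat.strong_induction_on with
    | _ k ih =>
      intro G W hk h3 h6
      have h5 : 5 ≤ W.card := by
        by_contra hcon
        have h7 := eW_le G W
        have h8 : W.card = 3 ∨ W.card = 4 := by omega
        rcases h8 with h8 | h8 <;> rw [h8] at h6 h7 <;> omega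
      by_cases h1 : ∃ x ∈ W, degW G W x ≤ 3
      · obtain ⟨x, hx, hd⟩ := h1
        have e1 := (hE V G W x x hx).1
        have c1 := Finset.card_erase_of_mem hx
        have h := ih ((W.erase x).card + eW G (W.erase x)) (by omega) G (W.erase x) rfl (by omega)
          (by omega)
        exact h.mono le_rfl (Finset.coe_subset.2 (Finset.erase_subset x W))
      by_cases h2 : ∃ x ∈ W, ∃ y ∈ W, G.Adj x y ∧ comN G W x y ≤ 2
      · obtain ⟨x, hx, y, hy, hxy, hd⟩ := h2
        have e1 := (hE V G W x y hx).2 hy hxy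
        have c1 := Finset.card_erase_of_mem hx
        have h := ih ((W.erase x).card + eW (addN G x y) (W.erase x)) (by omega) (addN G x y)
          (W.erase x) rfl (by omega) (by omega)
        rw [Finset.coe_erase] at h
        exact HasK5.lift hxy (Finset.mem_coe.2 hx) h
      push Not at h1 h2
      by_cases h8 : 6 * W.card ≤ eW G W + 8
      · obtain ⟨x, hx⟩ : W.Nonempty := Finset.card_pos.1 (by omega)
        have hd := h1 x hx
        unfold degW at hd
        obtain ⟨y, hy⟩ := Finset.card_pos.1 (lt_trans (by norm_num) hd)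
        rw [Finset.mem_filter] at hy
        have e1 := eW_delete G W hx hy.1 hy.2
        have h := ih (W.card + eW (G.deleteEdges {s(x, y)}) W) (by omega)
          (G.deleteEdges {s(x, y)}) W rfl h3 (by omega)
        exact h.mono (SimpleGraph.deleteEdges_le _) Set.Subset.rfl
      obtain ⟨v, hv, hd⟩ : ∃ v ∈ W, degW G W v ≤ 5 := by
        by_contra hcon
        push Not at hcon
        have h9 : ∑ v ∈ W, 6 ≤ ∑ v ∈ W, degW G W v :=
          Finset.sum_le_sum fun v hv => hcon v hv
        rw [Finset.sum_const, smul_eq_mul, ← eW_eq] at h9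
        omega
      exact last_step G W v hv (h1 v hv) hd fun y hy hvy => h2 v hv y hy hvy
  exact main _ G W rfl hW3 hW

end NApexGraphs.Fam.Helper14
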